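import Mathlib
import Pool.Agent.R982.ClueBlocks

/-!
# Clue profile and expected clue of a Bernoulli set for a two-scale tribes function

Fair bits, `2^k` blocks of size `k` and `2^(2k)` blocks of size `3k`, all disjoint; the output is
`1` iff some block is all ones.
-/

namespace Pool.Agent.Results.MP_b26fee_pr.TwoScaleTribes

open Filter Topology Pool.Agent.R982.Clue

/-- Block indices. -/
abbrev Bl (k : ℕ) := Fin (2 ^ k) ⊕ Fin (2 ^ (2 * k))

/-- Block sizes. -/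
def sz (k : ℕ) : Bl k → ℕ := Sum.elim (fun _ => k) (fun _ => 3 * k)

/-- Coordinates. -/
abbrev Vk (k : ℕ) := Coord (sz k)

lemma prod_Bl (k : ℕ) (g : ℕ → ℝ → ℝ) (x y : ℝ) :
    ∏ b : Bl k, g (sz k b) (Sum.elim (fun _ => x) (fun _ => y) b)
      = g k x ^ (2 ^ k) * g (3 * k) y ^ (2 ^ (2 * k)) := by
  rw [Fintype.prod_sum_type]
  simp [sz]

/-- Probability that no small block is all ones. -/
noncomputable def a1 (k : ℕ) : ℝ := (1 - (1 / 2) ^ k) ^ (2 ^ k)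

/-- Probability that no large block is all ones. -/
noncomputable def a2 (k : ℕ) : ℝ := (1 - (1 / 2) ^ (3 * k)) ^ (2 ^ (2 * k))

lemma mean_A_eq (k : ℕ) : mean (1 / 2) (A (sz k)) = a1 k * a2 k := by
  rw [mean_A]
  exact prod_Bl k (fun m _ => 1 - (1 / 2) ^ m) 0 0

lemma PS_const_eq (k : ℕ) (t : ℝ) : PS (fun _ => t) (A (sz k)) (A (sz k))
    = (1 - 2 * (1 / 2) ^ k + ((1 + t) / 4) ^ k) ^ (2 ^ k)
      * (1 - 2 * (1 / 2) ^ (3 * k) + ((1 + t) / 4) ^ (3 * k)) ^ (2 ^ (2 * k)) := by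
  rw [PS_A (sz k) (fun _ => t)]
  have h := prod_Bl k (fun m x => 1 - 2 * (1 / 2) ^ m + ((1 + x) / 4) ^ m) t t
  rw [← h]
  refine Finset.prod_congr rfl fun b _ => ?_
  rcases b with b | b <;> simp

/-- The coordinates of the small blocks. -/
def U1 (k : ℕ) : Finset (Vk k) := Finset.univ.filter (fun v => v.1.isLeft = true)

lemma PS_U1_eq (k : ℕ) : PS (fun i => if i ∈ U1 k then 1 else 0) (A (sz k)) (A (sz k))
    = (1 - 2 * (1 / 2) ^ k + ((1 + 1) / 4) ^ k) ^ (2 ^ k)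
      * (1 - 2 * (1 / 2) ^ (3 * k) + ((1 + 0) / 4) ^ (3 * k)) ^ (2 ^ (2 * k)) := by
  have h1 : (fun i : Vk k => if i ∈ U1 k then (1 : ℝ) else 0)
      = fun v : Vk k => (Sum.elim (fun _ => (1 : ℝ)) (fun _ => 0) : Bl k → ℝ) v.1 := by
    funext v
    rcases v with ⟨b, i⟩
    rcases b with b | b <;> simp [U1]
  rw [h1, PS_A (sz k) (Sum.elim (fun _ => (1 : ℝ)) (fun _ => 0))]
  exact prod_Bl k (fun m x => 1 - 2 * (1 / 2) ^ m + ((1 + x) / 4) ^ m) 1 0

lemma half_pow_mul (k : ℕ) : ((2 ^ k : ℕ) : ℝ) * (1 / 2) ^ k = 1 := by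
  push_cast
  rw [← mul_pow]
  norm_num

lemma half_pow_mul' (k : ℕ) : ((2 ^ (2 * k) : ℕ) : ℝ) * (1 / 2) ^ (3 * k) = (1 / 2) ^ k := by
  have : (1 / 2 : ℝ) ^ (3 * k) = (1 / 2) ^ (2 * k) * (1 / 2) ^ k := by rw [← pow_add]; ring_nf
  rw [this, ← mul_assoc, half_pow_mul, one_mul]

lemma p_pos (k : ℕ) : (0 : ℝ) < (1 / 2) ^ k := by positivity

lemma p_le {k : ℕ} (hk : 1 ≤ k) : (1 / 2 : ℝ) ^ k ≤ 1 / 2 := by
  calc (1 / 2 : ℝ) ^ k ≤ (1 / 2) ^ 1 := pow_le_pow_of_le_one (by norm_num) (by norm_num) hk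
    _ = 1 / 2 := by norm_num

lemma a1_ge {k : ℕ} (hk : 1 ≤ k) : 1 / 4 ≤ a1 k := by
  obtain ⟨j, rfl⟩ : ∃ j, k = j + 1 := ⟨k - 1, by omega⟩
  have h0 := p_le hk
  have h1 : (1 : ℝ) / 2 ≤ (1 - (1 / 2) ^ (j + 1)) ^ (2 ^ j) := by
    have h2 := one_add_mul_le_pow (a := -(1 / 2 : ℝ) ^ (j + 1)) (by linarith) (2 ^ j)
    have h3 : ((2 ^ j : ℕ) : ℝ) * (1 / 2) ^ (j + 1) = 1 / 2 := by
      rw [pow_succ, ← mul_assoc, half_pow_mul, one_mul]
    have h4 : 1 + ((2 ^ j : ℕ) : ℝ) * (-(1 / 2 : ℝ) ^ (j + 1)) = 1 / 2 := by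
      rw [mul_neg, h3]; norm_num
    rw [h4] at h2
    rw [sub_eq_add_neg]
    exact h2
  have h5 : a1 (j + 1) = ((1 - (1 / 2 : ℝ) ^ (j + 1)) ^ (2 ^ j)) ^ 2 := by
    rw [a1, ← pow_mul, ← pow_succ]
  rw [h5]
  have h6 := pow_le_pow_left₀ (by norm_num : (0 : ℝ) ≤ 1 / 2) h1 2
  norm_num at h6 ⊢
  exact h6

lemma a1_le (k : ℕ) (hk : 1 ≤ k) : a1 k ≤ 1 / 2 := by
  have h0 := p_le hk
  have h1 : 1 - (1 / 2 : ℝ) ^ k ≤ Real.exp (-(1 / 2) ^ k) := Real.one_sub_le_exp_neg _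
  have h2 : a1 k ≤ Real.exp (-(1 / 2) ^ k) ^ (2 ^ k) := pow_le_pow_left₀ (by linarith) h1 _
  rw [← Real.exp_nat_mul, mul_neg, half_pow_mul] at h2
  refine h2.trans ?_
  rw [Real.exp_neg, inv_le_comm₀ (Real.exp_pos 1) (by norm_num)]
  have := Real.add_one_le_exp (1 : ℝ)
  norm_num at this ⊢
  linarith

lemma a2_ge (k : ℕ) (_hk : 1 ≤ k) : 1 - (1 / 2) ^ k ≤ a2 k := by
  have h2 := one_add_mul_le_pow (a := -(1 / 2 : ℝ) ^ (3 * k)) (by
    have : (1 / 2 : ℝ) ^ (3 * k) ≤ 1 := pow_le_one₀ (by norm_num) (by norm_num)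
    linarith) (2 ^ (2 * k))
  rw [mul_neg, half_pow_mul', ← sub_eq_add_neg, ← sub_eq_add_neg] at h2
  exact h2

lemma a2_le (k : ℕ) : a2 k ≤ 1 := by
  refine pow_le_one₀ ?_ ?_
  · have : (1 / 2 : ℝ) ^ (3 * k) ≤ 1 := pow_le_one₀ (by norm_num) (by norm_num)
    linarith
  · have := p_pos (3 * k)
    linarith

lemma sq_pow_half (k : ℕ) (x : ℝ) : (x / 4) ^ k = ((1 / 2 : ℝ) ^ k) ^ 2 * x ^ k := by
  have : ((1 / 2 : ℝ) ^ k) ^ 2 = (1 / 4) ^ k := by
    rw [← pow_mul, mul_comm, pow_mul]; norm_num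
  rw [this, ← mul_pow]
  congr 1
  ring

/-- Lower bound for the pair sum. -/
lemma Q_lower {k : ℕ} (hk : 1 ≤ k) {δ : ℝ} (hδ : 0 ≤ δ) :
    (a1 k * a2 k) ^ 2 * (1 + (1 / 2) ^ k * (k * δ)) ≤ PS (fun _ => δ) (A (sz k)) (A (sz k)) := by
  rw [PS_const_eq]
  set p : ℝ := (1 / 2) ^ k with hp
  set p' : ℝ := (1 / 2) ^ (3 * k) with hp'
  have hp0 : 0 < p := p_pos k
  have hp1 : p ≤ 1 / 2 := p_le hk
  have hp0' : 0 < p' := p_pos (3 * k)
  have hp1' : p' ≤ 1 / 2 := p_le (by omega)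
  have hX : (1 - p) ^ 2 * (1 + p ^ 2 * (k * δ)) ≤ 1 - 2 * p + ((1 + δ) / 4) ^ k := by
    rw [sq_pow_half]
    have h1 : 1 + (k : ℝ) * δ ≤ (1 + δ) ^ k := one_add_mul_le_pow (by linarith) k
    have h2 : p ^ 2 * (1 + (k : ℝ) * δ) ≤ p ^ 2 * (1 + δ) ^ k :=
      mul_le_mul_of_nonneg_left h1 (sq_nonneg p)
    have h3 : (1 - p) ^ 2 * (p ^ 2 * (k * δ)) ≤ p ^ 2 * (k * δ) := by
      have h4 : (1 - p) ^ 2 ≤ 1 := by nlinarith
      have h5 : 0 ≤ p ^ 2 * ((k : ℝ) * δ) := by positivity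
      nlinarith
    nlinarith
  have hY : (1 - p') ^ 2 ≤ 1 - 2 * p' + ((1 + δ) / 4) ^ (3 * k) := by
    rw [sq_pow_half]
    have h1 : (1 : ℝ) ≤ (1 + δ) ^ (3 * k) := one_le_pow₀ (by linarith)
    have h2 : p' ^ 2 * 1 ≤ p' ^ 2 * (1 + δ) ^ (3 * k) :=
      mul_le_mul_of_nonneg_left h1 (sq_nonneg p')
    nlinarith
  have hXN : a1 k ^ 2 * (1 + p * (k * δ)) ≤ (1 - 2 * p + ((1 + δ) / 4) ^ k) ^ (2 ^ k) := by
    refine le_trans ?_ (pow_le_pow_left₀ (by positivity) hX _)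
    rw [mul_pow]
    have h1 : ((1 - p) ^ 2) ^ (2 ^ k) = a1 k ^ 2 := by rw [a1, ← pow_mul, ← pow_mul, mul_comm]
    rw [h1]
    have h2 := one_add_mul_le_pow (a := p ^ 2 * ((k : ℝ) * δ)) (by
      have : 0 ≤ p ^ 2 * ((k : ℝ) * δ) := by positivity
      linarith) (2 ^ k)
    have h3 : ((2 ^ k : ℕ) : ℝ) * (p ^ 2 * (k * δ)) = p * (k * δ) := by
      have := half_pow_mul k
      rw [sq, show ((2 ^ k : ℕ) : ℝ) * (p * p * (k * δ)) = (((2 ^ k : ℕ) : ℝ) * p) * (p * (k * δ)) by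
        ring, hp, this, one_mul]
    rw [h3] at h2
    exact mul_le_mul_of_nonneg_left h2 (sq_nonneg _)
  have hYN : a2 k ^ 2 ≤ (1 - 2 * p' + ((1 + δ) / 4) ^ (3 * k)) ^ (2 ^ (2 * k)) := by
    refine le_trans (le_of_eq ?_) (pow_le_pow_left₀ (sq_nonneg _) hY _)
    rw [a2, ← pow_mul, ← pow_mul, Nat.mul_comm (2 ^ (2 * k)) 2]
  calc (a1 k * a2 k) ^ 2 * (1 + p * (k * δ)) = (a1 k ^ 2 * (1 + p * (k * δ))) * a2 k ^ 2 := by ring
    _ ≤ _ := mul_le_mul hXN hYN (sq_nonneg _) (le_trans (by positivity) hXN)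

/-- Upper bound for the pair sum. -/
lemma Q_upper {k : ℕ} (hk : 1 ≤ k) {ε : ℝ} (hε0 : 0 < ε) (hε1 : ε < 1) :
    PS (fun _ => 1 - ε) (A (sz k)) (A (sz k))
      ≤ (a1 k * a2 k) ^ 2 * Real.exp (4 * (1 - ε / 2) ^ k + 4 * (1 / 2) ^ k) := by
  rw [PS_const_eq]
  set p : ℝ := (1 / 2) ^ k with hp
  set p' : ℝ := (1 / 2) ^ (3 * k) with hp'
  have hp0 : 0 < p := p_pos k
  have hp1 : p ≤ 1 / 2 := p_le hk
  have hp0' : 0 < p' := p_pos (3 * k)
  have hp1' : p' ≤ 1 / 2 := p_le (by omega)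
  have ht : 1 + (1 - ε) = 2 - ε := by ring
  rw [ht]
  have gen : ∀ (m : ℕ) (x : ℝ), (1 / 2 : ℝ) ^ m = x → 0 < x → x ≤ 1 / 2 →
      0 ≤ 1 - 2 * x + ((2 - ε) / 4) ^ m ∧
      1 - 2 * x + ((2 - ε) / 4) ^ m ≤ (1 - x) ^ 2 * Real.exp (4 * (x ^ 2 * (2 - ε) ^ m)) := by
    intro m x hx hx0 hx1
    have h0 : 0 ≤ (2 - ε) ^ m := pow_nonneg (by linarith) m
    rw [sq_pow_half, hx]
    constructor
    · have : 0 ≤ x ^ 2 * (2 - ε) ^ m := by positivity
      linarith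
    · have h1 : 1 + 4 * (x ^ 2 * (2 - ε) ^ m) ≤ Real.exp (4 * (x ^ 2 * (2 - ε) ^ m)) := by
        have := Real.add_one_le_exp (4 * (x ^ 2 * (2 - ε) ^ m))
        linarith
      refine le_trans ?_ (mul_le_mul_of_nonneg_left h1 (sq_nonneg _))
      have h2 : (1 : ℝ) / 4 ≤ (1 - x) ^ 2 := by nlinarith
      have h3 : 0 ≤ x ^ 2 * (2 - ε) ^ m := by positivity
      nlinarith
  obtain ⟨hX0, hX⟩ := gen k p hp.symm hp0 hp1
  obtain ⟨hY0, hY⟩ := gen (3 * k) p' hp'.symm hp0' hp1'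
  have hXN : (1 - 2 * p + ((2 - ε) / 4) ^ k) ^ (2 ^ k)
      ≤ a1 k ^ 2 * Real.exp (4 * (1 - ε / 2) ^ k) := by
    refine (pow_le_pow_left₀ hX0 hX _).trans (le_of_eq ?_)
    rw [mul_pow, ← Real.exp_nat_mul]
    have h1 : ((1 - p) ^ 2) ^ (2 ^ k) = a1 k ^ 2 := by rw [a1, ← pow_mul, ← pow_mul, mul_comm]
    rw [h1]
    congr 2
    have h2 : ((2 ^ k : ℕ) : ℝ) * (4 * (p ^ 2 * (2 - ε) ^ k))
        = 4 * ((((2 ^ k : ℕ) : ℝ) * p) * (p * (2 - ε) ^ k)) := by ring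
    rw [h2, hp, half_pow_mul, one_mul, ← mul_pow]
    congr 2
    ring
  have hYN : (1 - 2 * p' + ((2 - ε) / 4) ^ (3 * k)) ^ (2 ^ (2 * k))
      ≤ a2 k ^ 2 * Real.exp (4 * p) := by
    refine (pow_le_pow_left₀ hY0 hY _).trans ?_
    rw [mul_pow, ← Real.exp_nat_mul]
    have h1 : ((1 - p') ^ 2) ^ (2 ^ (2 * k)) = a2 k ^ 2 := by
      rw [a2, ← pow_mul, ← pow_mul, mul_comm]
    rw [h1]
    refine mul_le_mul_of_nonneg_left (Real.exp_le_exp.mpr ?_) (sq_nonneg _)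
    have h2 : p' * (2 - ε) ^ (3 * k) ≤ 1 := by
      rw [hp', ← mul_pow]
      exact pow_le_one₀ (by nlinarith) (by linarith)
    have h3 : ((2 ^ (2 * k) : ℕ) : ℝ) * (4 * (p' ^ 2 * (2 - ε) ^ (3 * k)))
        = 4 * ((((2 ^ (2 * k) : ℕ) : ℝ) * p') * (p' * (2 - ε) ^ (3 * k))) := by ring
    rw [h3, hp', half_pow_mul', ← hp', ← hp]
    nlinarith
  calc _ ≤ (a1 k ^ 2 * Real.exp (4 * (1 - ε / 2) ^ k)) * (a2 k ^ 2 * Real.exp (4 * p)) :=
        mul_le_mul hXN hYN (pow_nonneg hY0 _) (by positivity)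
    _ = _ := by rw [Real.exp_add]; ring

lemma PS_U1_eq' (k : ℕ) : PS (fun i => if i ∈ U1 k then 1 else 0) (A (sz k)) (A (sz k))
    = a1 k * a2 k ^ 2 := by
  rw [PS_U1_eq]
  have h1 : ((1 + 1) / 4 : ℝ) = 1 / 2 := by norm_num
  have h2 : 1 - 2 * (1 / 2 : ℝ) ^ k + (1 / 2) ^ k = 1 - (1 / 2) ^ k := by ring
  have h3 : 1 - 2 * (1 / 2 : ℝ) ^ (3 * k) + ((1 + 0) / 4) ^ (3 * k) = (1 - (1 / 2) ^ (3 * k)) ^ 2 := by
    rw [sq_pow_half]
    simp
    ring
  rw [h1, h2, h3, a1, a2, ← pow_mul, ← pow_mul, mul_comm 2]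

lemma card_U1 (k : ℕ) : (U1 k).card = 2 ^ k * k := by
  have h1 : (U1 k) = (Finset.univ : Finset (Bl k)).sigma
      (fun b => if b.isLeft = true then (Finset.univ : Finset (Fin (sz k b))) else ∅) := by
    ext ⟨b, i⟩
    simp only [U1, Finset.mem_filter, Finset.mem_univ, true_and, Finset.mem_sigma]
    by_cases h : b.isLeft = true <;> simp [h]
  have h2 : ∀ b : Bl k, (if b.isLeft = true then (Finset.univ : Finset (Fin (sz k b))) else ∅).card
      = if b.isLeft = true then sz k b else 0 := by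
    intro b
    split_ifs <;> simp
  rw [h1, Finset.card_sigma]
  simp only [h2]
  rw [Fintype.sum_sum_type]
  simp [sz]

lemma card_Vk (k : ℕ) : Fintype.card (Vk k) = 2 ^ k * k + 2 ^ (2 * k) * (3 * k) := by
  rw [Fintype.card_sigma]
  simp only [Fintype.card_fin]
  rw [Fintype.sum_sum_type]
  simp [sz]

lemma monotone_tribes (k : ℕ) : Monotone (tribes (sz k)) := by
  intro ω ω' h
  unfold tribes
  by_cases h1 : ∃ b, ∀ i : Fin (sz k b), ω ⟨b, i⟩ = true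
  · have h2 : ∃ b, ∀ i : Fin (sz k b), ω' ⟨b, i⟩ = true := by
      obtain ⟨b, hb⟩ := h1
      refine ⟨b, fun i => ?_⟩
      have := h ⟨b, i⟩
      rw [hb i] at this
      exact top_le_iff.mp this
    rw [if_pos h1, if_pos h2]
  · rw [if_neg h1]
    split_ifs <;> norm_num

lemma tribes_val {B : Type*} [Fintype B] [DecidableEq B] (s : B → ℕ) (ω : Coord s → Bool) :
    tribes s ω = 1 ∨ tribes s ω = -1 := by
  unfold tribes
  split_ifs
  · left; rfl
  · right; rfl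

lemma pivotal {k : ℕ} (hk : 1 ≤ k) (v : Vk k) :
    ∃ ω, tribes (sz k) (Function.update ω v (!ω v)) ≠ tribes (sz k) ω := by
  obtain ⟨b, i⟩ := v
  refine ⟨fun v' => decide (v'.1 = b), ?_⟩
  have h1 : tribes (sz k) (fun v' => decide (v'.1 = b)) = 1 := by
    unfold tribes
    rw [if_pos]
    exact ⟨b, fun j => by simp⟩
  have h2 : tribes (sz k) (Function.update (fun v' : Vk k => decide (v'.1 = b)) ⟨b, i⟩
      (!(decide ((⟨b, i⟩ : Vk k).1 = b)))) = -1 := by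
    unfold tribes
    rw [if_neg]
    rintro ⟨b', hb'⟩
    by_cases hbb : b' = b
    · subst hbb
      have := hb' i
      simp at this
    · have hsz : 0 < sz k b' := by
        rcases b' with b' | b' <;> simp [sz] <;> omega
      have := hb' ⟨0, hsz⟩
      rw [Function.update_of_ne] at this
      · simp [hbb] at this
      · intro h
        exact hbb (congrArg Sigma.fst h)
  rw [h1, h2]
  norm_num

/-- There is a noise-sensitive sequence of monotone functions of fair bits, with variance bounded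
away from zero and without irrelevant coordinates, such that for every `δ` in `(0,1)` the ratio of
the expected clue of the Bernoulli set with parameter `δ` to the clue profile at `δ` tends to
infinity. -/
theorem result : ∃ (V : ℕ → Type) (_ : ∀ n, Fintype (V n)) (_ : ∀ n, DecidableEq (V n))
    (p : ℕ → ℝ) (f : ∀ n, (V n → Bool) → ℝ),
    (∀ n, 0 < p n ∧ p n < 1) ∧
    Tendsto (fun n => Fintype.card (V n)) atTop atTop ∧
    (∀ n ω, f n ω = 1 ∨ f n ω = -1) ∧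
    (∀ n, Monotone (f n)) ∧
    (∃ c > 0, ∀ n, c ≤ variance (p n) (f n)) ∧
    (∀ n i, ∃ ω, f n (Function.update ω i (!ω i)) ≠ f n ω) ∧
    (∀ ε ∈ Set.Ioo (0 : ℝ) 1,
      Tendsto (fun n => noiseCorr (p n) (f n) ε - mean (p n) (f n) ^ 2) atTop (𝓝 0)) ∧
    ∀ δ ∈ Set.Ioo (0 : ℝ) 1,
      Tendsto (fun n => meanClue (p n) (f n) δ / clueProfile (p n) (f n) δ) atTop atTop := by
  refine ⟨fun n => Vk (n + 1), fun n => inferInstance, fun n => inferInstance, fun _ => 1 / 2,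
    fun n => tribes (sz (n + 1)), fun n => by norm_num, ?_, ?_, fun n => monotone_tribes _, ?_,
    fun n v => pivotal (by omega) v, ?_, ?_⟩
  · refine tendsto_atTop_mono (fun n => ?_) tendsto_id
    rw [card_Vk]
    have h1 : n + 1 ≤ 2 ^ (n + 1) * (n + 1) := Nat.le_mul_of_pos_left _ (by positivity)
    simp only [id]
    omega
  · intro n ω
    exact tribes_val (sz (n + 1)) ω
  · refine ⟨1 / 4, by norm_num, fun n => ?_⟩
    rw [variance_tribes, mean_A_eq]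
    have h1 := a1_ge (k := n + 1) (by omega)
    have h2 := a1_le (n + 1) (by omega)
    have h3 := a2_ge (n + 1) (by omega)
    have h4 := a2_le (n + 1)
    have h5 := p_le (k := n + 1) (by omega)
    set x := a1 (n + 1)
    set y := a2 (n + 1)
    have h6 : 1 / 2 ≤ y := by linarith
    have h7 : 1 / 8 ≤ x * y := by nlinarith
    have h8 : x * y ≤ 1 / 2 := by nlinarith
    nlinarith
  · intro ε hε
    have hlim : Tendsto (fun n : ℕ => 4 * (Real.exp (4 * (1 - ε / 2) ^ (n + 1)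
        + 4 * (1 / 2) ^ (n + 1)) - 1)) atTop (𝓝 (4 * (Real.exp (4 * 0 + 4 * 0) - 1))) := by
      have h1 : Tendsto (fun n : ℕ => (1 - ε / 2) ^ (n + 1)) atTop (𝓝 0) :=
        (tendsto_pow_atTop_nhds_zero_of_lt_one (by linarith [hε.2]) (by linarith [hε.1])).comp
          (tendsto_add_atTop_nat 1)
      have h2 : Tendsto (fun n : ℕ => (1 / 2 : ℝ) ^ (n + 1)) atTop (𝓝 0) :=
        (tendsto_pow_atTop_nhds_zero_of_lt_one (by norm_num) (by norm_num)).comp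
          (tendsto_add_atTop_nat 1)
      exact (((Real.continuous_exp.tendsto _).comp
        ((h1.const_mul 4).add (h2.const_mul 4))).sub_const 1).const_mul 4
    have h0 : 4 * (Real.exp (4 * 0 + 4 * 0) - 1) = 0 := by simp
    rw [h0] at hlim
    refine squeeze_zero (fun n => ?_) (fun n => ?_) hlim
    · rw [noise_tribes, mean_A_eq]
      have h1 := Q_lower (k := n + 1) (by omega) (δ := 1 - ε) (by linarith [hε.2])
      have h2 : 0 ≤ (a1 (n + 1) * a2 (n + 1)) ^ 2 * ((1 / 2) ^ (n + 1) * (((n + 1 : ℕ) : ℝ) * (1 - ε))) := by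
        have : 0 ≤ 1 - ε := by linarith [hε.2]
        positivity
      nlinarith
    · rw [noise_tribes, mean_A_eq]
      have h1 := Q_upper (k := n + 1) (by omega) hε.1 hε.2
      have h2 : (a1 (n + 1) * a2 (n + 1)) ^ 2 ≤ 1 := by
        have e1 := a1_le (n + 1) (by omega)
        have e2 := a2_le (n + 1)
        have e3 := a1_ge (k := n + 1) (by omega)
        have e4 := a2_ge (n + 1) (by omega)
        have e5 := p_le (k := n + 1) (by omega)
        have e6 : 0 ≤ a1 (n + 1) * a2 (n + 1) := by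
          apply mul_nonneg <;> linarith
        have e7 : a1 (n + 1) * a2 (n + 1) ≤ 1 := by nlinarith
        nlinarith
      have h3 : 0 ≤ Real.exp (4 * (1 - ε / 2) ^ (n + 1) + 4 * (1 / 2) ^ (n + 1)) - 1 := by
        have : 0 ≤ 4 * (1 - ε / 2) ^ (n + 1) + 4 * (1 / 2) ^ (n + 1) := by
          have : 0 ≤ 1 - ε / 2 := by linarith [hε.2]
          positivity
        have := Real.one_le_exp this
        linarith
      nlinarith
  · intro δ hδ
    have hev : ∀ᶠ n : ℕ in atTop, 2 * (1 / 2 : ℝ) ^ (n + 1) ≤ 1 - δ := by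
      have h2 : Tendsto (fun n : ℕ => 2 * (1 / 2 : ℝ) ^ (n + 1)) atTop (𝓝 (2 * 0)) :=
        ((tendsto_pow_atTop_nhds_zero_of_lt_one (by norm_num) (by norm_num)).comp
          (tendsto_add_atTop_nat 1)).const_mul 2
      refine h2.eventually_le_const ?_
      linarith [hδ.2]
    have hlin : Tendsto (fun n : ℕ => 3 * δ / 8 * ((n + 1 : ℕ) : ℝ)) atTop atTop := by
      refine Tendsto.const_mul_atTop (by linarith [hδ.1]) ?_
      exact tendsto_natCast_atTop_atTop.comp (tendsto_add_atTop_nat 1)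
    refine tendsto_atTop_mono' _ ?_ hlin
    filter_upwards [hev] with n hn
    set k := n + 1 with hk
    have hk1 : 1 ≤ k := by omega
    set p : ℝ := (1 / 2) ^ k with hp
    have hp0 : 0 < p := p_pos k
    have hp1 : p ≤ 1 / 2 := p_le hk1
    have e1 := a1_le k hk1
    have e2 := a2_le k
    have e3 := a1_ge (k := k) hk1
    have e4 := a2_ge k hk1
    have e5 : 1 / 2 ≤ a2 k := by linarith
    have e6 : 1 / 8 ≤ a1 k * a2 k := by nlinarith
    have e7 : a1 k * a2 k ≤ 1 / 2 := by nlinarith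
    have hden : 0 < a1 k * a2 k - (a1 k * a2 k) ^ 2 := by nlinarith
    -- numerator
    have hmc : p * (k * δ) / 8 ≤ meanClue (1 / 2) (tribes (sz k)) δ := by
      rw [meanClue_tribes, mean_A_eq, le_div_iff₀ hden]
      have h1 := Q_lower (k := k) hk1 (δ := δ) hδ.1.le
      have h2 : 0 ≤ p * ((k : ℝ) * δ) := by have := hδ.1.le; positivity
      have h3 : a1 k * a2 k - (a1 k * a2 k) ^ 2 ≤ a1 k * a2 k := by nlinarith
      have h4 : p * (k * δ) / 8 * (a1 k * a2 k - (a1 k * a2 k) ^ 2)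
          ≤ p * (k * δ) / 8 * (a1 k * a2 k) := mul_le_mul_of_nonneg_left h3 (by positivity)
      have h5 : p * (k * δ) / 8 * (a1 k * a2 k) ≤ p * (k * δ) * (a1 k * a2 k) ^ 2 := by
        have : 1 / 8 * (a1 k * a2 k) ≤ (a1 k * a2 k) ^ 2 := by nlinarith
        nlinarith
      linarith
    -- the clue of the small blocks
    have hclue : δ ≤ clue (1 / 2) (tribes (sz k)) (U1 k) := by
      rw [clue_tribes, mean_A_eq, PS_U1_eq', le_div_iff₀ hden]
      have h1 : 1 - δ ≥ 2 * p := hn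
      have h2 : a1 k * a2 k ^ 2 - (a1 k * a2 k) ^ 2 - δ * (a1 k * a2 k - (a1 k * a2 k) ^ 2)
          = a1 k * a2 k * ((1 - δ) * (1 - a1 k * a2 k) - (1 - a2 k)) := by ring
      have h3 : 0 ≤ (1 - δ) * (1 - a1 k * a2 k) - (1 - a2 k) := by nlinarith
      have h4 : 0 ≤ a1 k * a2 k * ((1 - δ) * (1 - a1 k * a2 k) - (1 - a2 k)) :=
        mul_nonneg (by linarith) h3
      linarith
    have hcardV : (0 : ℝ) < Fintype.card (Vk k) := by
      rw [card_Vk]
      have : 0 < 2 ^ k * k := by positivity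
      exact_mod_cast (by omega : 0 < 2 ^ k * k + 2 ^ (2 * k) * (3 * k))
    have hbdd : BddBelow {u : ℝ | ∃ U : Finset (Vk k), (U.card : ℝ) / Fintype.card (Vk k) ≤ u ∧
        δ ≤ clue (1 / 2) (tribes (sz k)) U} := by
      refine ⟨0, ?_⟩
      rintro u ⟨U, hU, _⟩
      exact le_trans (by positivity) hU
    have hcp1 : clueProfile (1 / 2) (tribes (sz k)) δ ≤ p / 3 := by
      have h1 : clueProfile (1 / 2) (tribes (sz k)) δ ≤ ((U1 k).card : ℝ) / Fintype.card (Vk k) :=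
        csInf_le hbdd ⟨U1 k, le_rfl, hclue⟩
      refine h1.trans ?_
      rw [div_le_iff₀ hcardV, card_U1, card_Vk]
      push_cast
      have h2 : (2 : ℝ) ^ (2 * k) = 2 ^ k * 2 ^ k := by rw [← pow_add]; ring_nf
      have h3 : p * 2 ^ k = 1 := by rw [hp, ← mul_pow]; norm_num
      rw [h2]
      have h4 : p / 3 * (2 ^ k * k + 2 ^ k * 2 ^ k * (3 * k))
          = (p * 2 ^ k) * (k / 3) + (p * 2 ^ k) * (2 ^ k * k) := by ring
      rw [h4, h3]
      have : (0 : ℝ) ≤ k / 3 := by positivity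
      linarith
    have hcp0 : 0 < clueProfile (1 / 2) (tribes (sz k)) δ := by
      have h1 : 1 / (Fintype.card (Vk k) : ℝ) ≤ clueProfile (1 / 2) (tribes (sz k)) δ := by
        refine le_csInf ⟨_, U1 k, le_rfl, hclue⟩ ?_
        rintro u ⟨U, hU, hU2⟩
        refine le_trans ?_ hU
        have hne : U ≠ ∅ := by
          rintro rfl
          rw [clue_empty] at hU2
          linarith [hδ.1]
        have h2 : 1 ≤ U.card := Finset.card_pos.mpr (Finset.nonempty_of_ne_empty hne)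
        have h3 : (1 : ℝ) ≤ U.card := by exact_mod_cast h2
        gcongr
      exact lt_of_lt_of_le (by positivity) h1
    rw [le_div_iff₀ hcp0]
    refine le_trans ?_ hmc
    have h1 : 3 * δ / 8 * ((k : ℕ) : ℝ) * clueProfile (1 / 2) (tribes (sz k)) δ
        ≤ 3 * δ / 8 * ((k : ℕ) : ℝ) * (p / 3) := by
      have := hδ.1.le
      exact mul_le_mul_of_nonneg_left hcp1 (by positivity)
    refine h1.trans (le_of_eq ?_)
    ring

end Pool.Agent.Results.MP_b26fee_pr.TwoScaleTribes
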